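import Pool.Agent.X119.Cong

/-!
# The second congruence of (b), modulo `p ^ 3`, fails, e.g. for `p = 5, 7, 11, 13, 17`
-/

set_option autoImplicit false

namespace Pool.Agent.Results.MP_bdd522_nt.FailsAsStated

open Finset Pool.Agent.X119.Cong

/-- the sum of `(u k + v) T_k(2, c) ^ 3 / m ^ k` over `k < p` -/
def sum (c : ℤ) (u v m : ℚ) (p : ℕ) : ℚ := ∑ k ∈ range p, (u * k + v) * (T k 2 c : ℚ) ^ 3 / m ^ k

/-- (a) for the prime `p` -/
def StatementA (p : ℕ) : Prop :=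
  Cong p 2 (jacobiSym 3 p * sum 3 0 1 8 p) (sum 3 0 1 (-64) p) ∧
  Cong p 2 (sum 3 0 1 (-64) p) (sum 9 0 1 (-64) p) ∧
  Cong p 2 (sum 9 0 1 (-64) p) (jacobiSym 3 p * sum 9 0 1 512 p) ∧
  (p % 24 = 1 ∨ p % 24 = 7 → ∀ x y : ℤ, (p : ℤ) = x ^ 2 + 6 * y ^ 2 →
    Cong p 2 (sum 9 0 1 (-64) p) (4 * x ^ 2 - 2 * p)) ∧
  (p % 24 = 5 ∨ p % 24 = 11 → ∀ x y : ℤ, (p : ℤ) = 2 * x ^ 2 + 3 * y ^ 2 →
    Cong p 2 (sum 9 0 1 (-64) p) (2 * p - 8 * x ^ 2)) ∧
  (jacobiSym (-6) p = -1 → Cong p 2 (sum 9 0 1 (-64) p) 0)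

/-- the first congruence of (b) for the prime `p` -/
def StatementB1 (p : ℕ) : Prop := Cong p 2 (sum 3 3 2 8 p) (p * (3 * jacobiSym 3 p - 1))

/-- the second congruence of (b) for the prime `p`, modulo `p ^ 3` -/
def StatementB2 (p : ℕ) : Prop := Cong p 3 (sum 3 3 1 (-64) p) (p * jacobiSym (-2) p)

/-- (c) for the prime `p` -/
def StatementC (p : ℕ) : Prop :=
  jacobiSym (-6) p = 1 → Cong p 2 (sum 9 72 47 (-64) p) (42 * p) ∧ Cong p 2 (sum 9 72 25 512 p) (12 * p * jacobiSym 3 p)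

/-- (d) for the integer `n` -/
def StatementD (n : ℕ) : Prop :=
  (2 * (n : ℤ)) ∣ ∑ k ∈ range n, (3 * (k : ℤ) + 2) * 8 ^ (n - 1 - k) * T k 2 3 ^ 3 ∧
  (n : ℤ) ∣ ∑ k ∈ range n, (3 * (k : ℤ) + 1) * (-64) ^ (n - 1 - k) * T k 2 3 ^ 3

/-- a form of the sum for computations -/
def sum' (c : ℤ) (u v m : ℚ) (p : ℕ) : ℚ := ∑ k ∈ range p, (u * k + v) * (T' k 2 c : ℚ) ^ 3 / m ^ k

theorem sum_eq (c : ℤ) (u v m : ℚ) (p : ℕ) : sum c u v m p = sum' c u v m p := by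
  unfold sum sum'
  refine sum_congr rfl fun k _ => ?_
  rw [T_eq]

theorem fail5 : ¬ StatementB2 5 := by
  unfold StatementB2
  rw [sum_eq]
  refine not_cong' (z := -5) ?_ (by decide +kernel)
  have h1 : jacobiSym (-2) 5 = -1 := by norm_num
  rw [h1]
  norm_num

theorem fail7 : ¬ StatementB2 7 := by
  unfold StatementB2
  rw [sum_eq]
  refine not_cong' (z := -7) ?_ (by decide +kernel)
  have h1 : jacobiSym (-2) 7 = -1 := by norm_num
  rw [h1]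
  norm_num

theorem fail11 : ¬ StatementB2 11 := by
  unfold StatementB2
  rw [sum_eq]
  refine not_cong' (z := 11) ?_ (by decide +kernel)
  have h1 : jacobiSym (-2) 11 = 1 := by norm_num
  rw [h1]
  norm_num

theorem fail13 : ¬ StatementB2 13 := by
  unfold StatementB2
  rw [sum_eq]
  refine not_cong' (z := -13) ?_ (by decide +kernel)
  have h1 : jacobiSym (-2) 13 = -1 := by norm_num
  rw [h1]
  norm_num

theorem fail17 : ¬ StatementB2 17 := by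
  unfold StatementB2
  rw [sum_eq]
  refine not_cong' (z := 17) ?_ (by decide +kernel)
  have h1 : jacobiSym (-2) 17 = 1 := by norm_num
  rw [h1]
  norm_num

/-- The congruence `∑_{k < p} (3 k + 1) T_k(2, 3) ^ 3 (-64) ^ (-k) ≡ p (-2/p) (mod p ^ 3)` fails for `p = 5, 7, 11, 13, 17`,
so that the conjunction of (a), (b), (c), (d) is false. -/
theorem result :
    (¬ StatementB2 5 ∧ ¬ StatementB2 7 ∧ ¬ StatementB2 11 ∧ ¬ StatementB2 13 ∧ ¬ StatementB2 17) ∧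
    ¬ ((∀ p : ℕ, p.Prime → 3 < p → StatementA p ∧ (StatementB1 p ∧ StatementB2 p) ∧ StatementC p) ∧
      ∀ n : ℕ, 1 ≤ n → StatementD n) :=
  ⟨⟨fail5, fail7, fail11, fail13, fail17⟩, fun h => fail5 (h.1 5 (by norm_num) (by norm_num)).2.1.2⟩

end Pool.Agent.Results.MP_bdd522_nt.FailsAsStated
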